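import Pool.Agent.X196.Liou

/-!
# A non-amenable group with a faithful action which is `n`-Liouville for every `n`

The group consists of the permutations of the free group of rank two which agree with a left
translation off a finite set.
-/

set_option autoImplicit false

namespace Pool.Agent.Results.MP_2579e4_al.AlmostTranslations

open Pool.Agent.X196.Liou

/-- `G` is amenable: there is a left-invariant finitely additive probability measure defined on
all subsets of `G`. -/
def IsAmenable (G : Type) [Group G] : Prop :=
  ∃ m : Set G → ℝ, (∀ A, 0 ≤ m A) ∧ m Set.univ = 1 ∧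
    (∀ A B, Disjoint A B → m (A ∪ B) = m A + m B) ∧
    ∀ (g : G) (A : Set G), m ((fun x => g * x) '' A) = m A

/-- the set `𝒫_n(X)` of the `n`-element subsets of `X` -/
def PSub (n : ℕ) (X : Type) : Type := {E : Finset X // E.card = n}

section Act

variable {G X : Type} [Group G] [MulAction G X]

/-- the image `g(E)` -/
def im (g : G) (E : Finset X) : Finset X := E.map (MulAction.toPerm g).toEmbedding

lemma mem_im {g : G} {E : Finset X} {x : X} : x ∈ im g E ↔ ∃ y ∈ E, g • y = x := by
  unfold im
  rw [Finset.mem_map]
  rfl

lemma card_im (g : G) (E : Finset X) : (im g E).card = E.card := Finset.card_map _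

lemma im_one (E : Finset X) : im (1 : G) E = E := by
  ext x
  simp [mem_im]

lemma im_mul (g h : G) (E : Finset X) : im (g * h) E = im g (im h E) := by
  ext x
  rw [mem_im, mem_im]
  constructor
  · rintro ⟨y, hy, rfl⟩
    exact ⟨h • y, mem_im.2 ⟨y, hy, rfl⟩, (mul_smul g h y).symm⟩
  · rintro ⟨z, hz, rfl⟩
    obtain ⟨y, hy, rfl⟩ := mem_im.1 hz
    exact ⟨y, hy, mul_smul g h y⟩

/-- the action on finite subsets -/
instance instFinsetAct : MulAction G (Finset X) where
  smul := im
  one_smul := im_one
  mul_smul := im_mul

/-- the action on `n`-element subsets -/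
instance instPSubAct (n : ℕ) : MulAction G (PSub n X) where
  smul g E := ⟨im g E.1, by rw [card_im, E.2]⟩
  one_smul E := Subtype.ext (im_one E.1)
  mul_smul g h E := Subtype.ext (im_mul g h E.1)

end Act

/-! ### the group -/

/-- the free group of rank two -/
abbrev F2 : Type := FreeGroup (Fin 2)

instance instInfiniteF2 : Infinite F2 := inferInstance

/-- the group of the permutations of `F2` agreeing with a left translation off a finite set -/
def AT : Subgroup (Equiv.Perm F2) where
  carrier := {π | ∃ w : F2, {x | π x ≠ w * x}.Finite}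
  one_mem' := ⟨1, by simp⟩
  mul_mem' := by
    rintro π π' ⟨w, hw⟩ ⟨w', hw'⟩
    refine ⟨w * w', (hw'.union (hw.preimage (π'.injective.injOn))).subset ?_⟩
    intro x hx
    by_contra h
    rw [Set.mem_union, not_or] at h
    have h1 : π' x = w' * x := by
      by_contra h2
      exact h.1 h2
    have h3 : π (π' x) = w * π' x := by
      by_contra h2
      exact h.2 h2
    apply hx
    rw [Equiv.Perm.mul_apply, h3, h1, mul_assoc]
  inv_mem' := by
    rintro π ⟨w, hw⟩
    refine ⟨w⁻¹, (hw.image π).subset ?_⟩
    intro x hx
    refine ⟨π⁻¹ x, ?_, by simp⟩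
    intro h
    apply hx
    have h1 : x = w * π⁻¹ x := by
      rw [← h]
      simp
    conv_rhs => rw [h1]
    simp

lemma exists_ht (π : AT) : ∃ w : F2, {x | π.1 x ≠ w * x}.Finite := π.2

/-- the translation part -/
noncomputable def htf (π : AT) : F2 := (exists_ht π).choose

lemma htf_spec (π : AT) : {x | π.1 x ≠ htf π * x}.Finite := (exists_ht π).choose_spec

lemma htf_unique (π : AT) (w : F2) (hw : {x | π.1 x ≠ w * x}.Finite) : htf π = w := by
  have h1 := (htf_spec π).union hw
  obtain ⟨x, hx⟩ := h1.infinite_compl.nonempty
  rw [Set.mem_compl_iff, Set.mem_union, not_or] at hx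
  have h2 : π.1 x = htf π * x := by
    by_contra h
    exact hx.1 h
  have h3 : π.1 x = w * x := by
    by_contra h
    exact hx.2 h
  exact mul_right_cancel (h2.symm.trans h3)

/-- the translation part is a homomorphism -/
noncomputable def ht : AT →* F2 where
  toFun := htf
  map_one' := htf_unique _ _ (by simp)
  map_mul' π π' := by
    apply htf_unique
    refine ((htf_spec π').union ((htf_spec π).preimage (π'.1.injective.injOn))).subset ?_
    intro x hx
    by_contra h
    rw [Set.mem_union, not_or] at h
    have h1 : π'.1 x = htf π' * x := by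
      by_contra h2
      exact h.1 h2
    have h3 : π.1 (π'.1 x) = htf π * π'.1 x := by
      by_contra h2
      exact h.2 h2
    apply hx
    show π.1 (π'.1 x) = _
    rw [h3, h1, mul_assoc]

/-- left translations -/
def tr (w : F2) : AT := ⟨Equiv.mulLeft w, w, by simp⟩

lemma ht_tr (w : F2) : ht (tr w) = w := htf_unique _ _ (by simp [tr])

/-- the finitary permutations -/
lemma fin_mem (π : Equiv.Perm F2) (E : Finset F2) (h : ∀ x ∉ E, π x = x) : π ∈ AT := by
  refine ⟨1, E.finite_toSet.subset fun x hx => ?_⟩
  by_contra h1
  apply hx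
  rw [h x h1, one_mul]

instance instCountableAT : Countable AT := by
  classical
  have h1 : (AT : Set (Equiv.Perm F2)) ⊆ ⋃ (w : F2), ⋃ (E : Finset F2),
      {π | ∀ x ∉ E, π x = w * x} := by
    rintro π ⟨w, hw⟩
    refine Set.mem_iUnion.2 ⟨w, Set.mem_iUnion.2 ⟨hw.toFinset, fun x hx => ?_⟩⟩
    by_contra h
    apply hx
    rw [Set.Finite.mem_toFinset]
    exact h
  have h2 : (AT : Set (Equiv.Perm F2)).Countable := by
    refine Set.Countable.mono h1 (Set.countable_iUnion fun w => Set.countable_iUnion fun E => ?_)
    refine Set.countable_of_injective_of_countable_image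
      (f := fun (π : Equiv.Perm F2) (x : E) => π x.1) ?_ (Set.to_countable _)
    intro π hπ π' hπ' h
    ext x
    by_cases hx : x ∈ E
    · exact congrFun h ⟨x, hx⟩
    · rw [hπ x hx, hπ' x hx]
  exact h2.to_subtype

/-- the group is not amenable -/
theorem not_amenable : ¬ IsAmenable AT := by
  classical
  rintro ⟨m, h0, h1, hadd, hinv⟩
  have hmono : ∀ A B : Set AT, A ⊆ B → m A ≤ m B := by
    intro A B hAB
    have h2 := hadd A (B \ A) Set.disjoint_sdiff_right
    rw [Set.union_sdiff_cancel hAB] at h2
    have := h0 (B \ A)
    linarith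
  have hsub : ∀ A B : Set AT, m (A ∪ B) ≤ m A + m B := by
    intro A B
    have h2 := hadd A (B \ A) Set.disjoint_sdiff_right
    rw [Set.union_sdiff_self] at h2
    have := hmono (B \ A) B Set.sdiff_subset
    linarith
  let W : Fin 2 × Bool → Set AT := fun s => {x | (ht x).toWord.head? = some s}
  have hdisj : ∀ s t, s ≠ t → Disjoint (W s) (W t) := by
    intro s t hst
    rw [Set.disjoint_left]
    intro x hx hx'
    have h2 : (ht x).toWord.head? = some s := hx
    have h3 : (ht x).toWord.head? = some t := hx'
    rw [h2] at h3
    exact hst (Option.some.inj h3)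
  have hone : ∀ i : Fin 2, 1 ≤ m (W (i, true)) + m (W (i, false)) := by
    intro i
    have hcov : (Set.univ : Set AT) ⊆
        W (i, true) ∪ (fun x => tr (FreeGroup.of i) * x) '' W (i, false) := by
      intro x _
      by_cases hx : (ht x).toWord.head? = some (i, true)
      · exact Or.inl hx
      · right
        refine ⟨(tr (FreeGroup.of i))⁻¹ * x, ?_, by simp⟩
        show (ht ((tr (FreeGroup.of i))⁻¹ * x)).toWord.head? = some (i, false)
        rw [map_mul, map_inv, ht_tr]
        have h2 : ((FreeGroup.of i)⁻¹ * ht x).toWord = (i, false) :: (ht x).toWord := by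
          rw [FreeGroup.toWord_mul, FreeGroup.toWord_inv, FreeGroup.toWord_of]
          have h3 : FreeGroup.invRev [(i, true)] = [(i, false)] := rfl
          rw [h3, List.singleton_append]
          apply FreeGroup.IsReduced.reduce_eq
          have h4 : FreeGroup.IsReduced (ht x).toWord := FreeGroup.isReduced_toWord
          unfold FreeGroup.IsReduced at h4 ⊢
          cases h : (ht x).toWord with
          | nil => exact List.isChain_singleton _
          | cons s L =>
            rw [h] at h4 hx
            refine List.isChain_cons_cons.2 ⟨?_, h4⟩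
            intro h5
            by_contra h6
            apply hx
            rw [List.head?_cons]
            congr 1
            ext
            · simp [← h5]
            · cases hs : s.2
              · exact absurd hs.symm h6
              · rfl
        rw [h2]
        rfl
    have h2 := hmono _ _ hcov
    rw [h1] at h2
    have h3 := hsub (W (i, true)) ((fun x => tr (FreeGroup.of i) * x) '' W (i, false))
    rw [hinv] at h3
    linarith
  have h2 := hadd (W (0, true)) (W (0, false)) (hdisj _ _ (by decide))
  have h3 := hadd (W (0, true) ∪ W (0, false)) (W (1, true))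
    (Set.disjoint_union_left.2 ⟨hdisj _ _ (by decide), hdisj _ _ (by decide)⟩)
  have h4 := hadd (W (0, true) ∪ W (0, false) ∪ W (1, true)) (W (1, false))
    (Set.disjoint_union_left.2 ⟨Set.disjoint_union_left.2 ⟨hdisj _ _ (by decide),
      hdisj _ _ (by decide)⟩, hdisj _ _ (by decide)⟩)
  have h5 := hmono _ Set.univ
    (Set.subset_univ (W (0, true) ∪ W (0, false) ∪ W (1, true) ∪ W (1, false)))
  have h6 := hone 0
  have h7 := hone 1
  linarith

lemma smul_eq_im (g : AT) (A : Finset F2) : g • A = im g A := rfl

/-- transitivity of the finitary permutations of a finite set on its subsets of a given size -/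
lemma exists_perm (E A B : Finset F2) (hA : A ⊆ E) (hB : B ⊆ E) (h : A.card = B.card) :
    ∃ τ : Equiv.Perm E, ∀ x ∈ A, Equiv.Perm.ofSubtype τ x ∈ B := by
  classical
  have e1 : {x : E // x.1 ∈ A} ≃ {x // x ∈ A} :=
    Equiv.subtypeSubtypeEquivSubtype fun {x} hx => hA hx
  have e2 : {x : E // x.1 ∈ B} ≃ {x // x ∈ B} :=
    Equiv.subtypeSubtypeEquivSubtype fun {x} hx => hB hx
  have e3 : {x // x ∈ A} ≃ {x // x ∈ B} := Finset.equivOfCardEq h
  let e : {x : E // x.1 ∈ A} ≃ {x : E // x.1 ∈ B} := e1.trans (e3.trans e2.symm)
  refine ⟨e.extendSubtype, fun x hx => ?_⟩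
  rw [Equiv.Perm.ofSubtype_apply_of_mem _ (hA hx)]
  exact e.extendSubtype_mem ⟨x, hA hx⟩ hx

/-- **Theorem.** There are a countable non-amenable group `G`, a faithful action of `G` on a set
`X` and one non-degenerate probability measure `μ` on `G` such that for every `n` all bounded
`μ`-harmonic functions on the set of the `n`-element subsets of `X` are constant. -/
theorem result : ∃ (G X : Type) (_ : Group G) (_ : MulAction G X),
    Countable G ∧ FaithfulSMul G X ∧ ¬ IsAmenable G ∧
    ∃ μ : G → ℝ, IsProb μ ∧ NonDegenerate μ ∧ ∀ n : ℕ, IsLiouvilleFor (PSub n X) μ := by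
  classical
  refine ⟨AT, F2, inferInstance, inferInstance, instCountableAT, ?_, not_amenable, ?_⟩
  · refine ⟨fun {g h} hgh => Subtype.ext (Equiv.ext fun x => hgh x)⟩
  have H : ∀ (K : Finset (Finset F2)) (h : AT), ∃ S : Finset AT, h ∈ S ∧ ∀ y ∈ K, ∀ z ∈ K,
      y.card = z.card → ∀ f : Finset F2 → ℝ, ∑ g ∈ S, f (g • y) = ∑ g ∈ S, f (g • z) := by
    intro K h
    let E : Finset F2 := K.biUnion fun A => im h A
    let io : Equiv.Perm E → AT := fun σ => ⟨Equiv.Perm.ofSubtype σ, fin_mem _ E fun x hx =>
      Equiv.Perm.ofSubtype_apply_of_not_mem σ hx⟩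
    have hio : ∀ σ τ, io (σ * τ) = io σ * io τ := fun σ τ => Subtype.ext (map_mul _ σ τ)
    have hinj : Function.Injective fun σ => io σ * h := by
      intro σ τ hστ
      have h1 : io σ = io τ := mul_right_cancel hστ
      exact Equiv.Perm.ofSubtype_injective (congrArg Subtype.val h1)
    refine ⟨Finset.univ.image fun σ => io σ * h, ?_, ?_⟩
    · refine Finset.mem_image.2 ⟨1, Finset.mem_univ _, ?_⟩
      have h1 : io 1 = 1 := Subtype.ext (map_one _)
      rw [h1, one_mul]
    · intro A hA B hB hAB f
      rw [Finset.sum_image hinj.injOn, Finset.sum_image hinj.injOn]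
      have hAE : im h A ⊆ E := Finset.subset_biUnion_of_mem (fun A => im h A) hA
      have hBE : im h B ⊆ E := Finset.subset_biUnion_of_mem (fun A => im h A) hB
      obtain ⟨τ, hτ⟩ := exists_perm E (im h A) (im h B) hAE hBE (by rw [card_im, card_im, hAB])
      have h2 : io τ • (h • A) = h • B := by
        apply Finset.eq_of_subset_of_card_le
        · intro x hx
          rw [smul_eq_im, mem_im] at hx
          obtain ⟨y, hy, rfl⟩ := hx
          exact hτ y hy
        · rw [smul_eq_im, smul_eq_im, smul_eq_im, card_im, card_im, card_im, hAB]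
      have h3 : ∑ σ : Equiv.Perm E, f ((io σ * h) • B) =
          ∑ σ : Equiv.Perm E, f ((io (σ * τ) * h) • A) := by
        refine Finset.sum_congr rfl fun σ _ => ?_
        rw [mul_smul, ← h2, hio, mul_smul, mul_smul]
      rw [h3]
      exact (Equiv.sum_comp (Equiv.mulRight τ) fun σ => f ((io σ * h) • A)).symm
  obtain ⟨μ, hμ, hpos, hmain⟩ := criterion (G := AT) (Y := Finset F2) (fun y z => y.card = z.card)
    (fun g y z hyz => by
      show (im g y).card = (im g z).card
      rw [card_im, card_im, hyz]) H
  refine ⟨μ, hμ, ?_, ?_⟩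
  · rw [NonDegenerate, eq_top_iff]
    intro g _
    exact Subsemigroup.subset_closure (hpos g).ne'
  · intro n f hf hharm
    obtain ⟨C, hC⟩ := hf
    rcases isEmpty_or_nonempty (PSub n F2) with he | he
    · exact ⟨0, fun y => he.elim y⟩
    obtain ⟨z⟩ := he
    have hC0 : 0 ≤ C := (abs_nonneg _).trans (hC z)
    let F : Finset F2 → ℝ := fun A => if h : A.card = n then f ⟨A, h⟩ else 0
    have hF : ∀ A, |F A| ≤ C := by
      intro A
      by_cases h : A.card = n
      · simp only [F, h, dif_pos]
        exact hC _
      · simp only [F, h, dif_neg, not_false_eq_true, abs_zero]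
        exact hC0
    have hFsum : ∀ A, HasSum (fun g : AT => μ g * F (g • A)) (F A) := by
      intro A
      by_cases h : A.card = n
      · let A' : PSub n F2 := ⟨A, h⟩
        have h1 := harmonic_sum hμ hC hharm A'
        have h2 : F A = f A' := by simp [F, h, A']
        have h3 : ∀ g : AT, F (g • A) = f (g • A') := by
          intro g
          have h4 : (g • A).card = n := by
            rw [smul_eq_im, card_im, h]
          simp only [F, h4, dif_pos]
          rfl
        rw [h2]
        simp only [h3]
        exact h1
      · have h2 : F A = 0 := by simp [F, h]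
        have h3 : ∀ g : AT, F (g • A) = 0 := by
          intro g
          have h4 : ¬ (g • A).card = n := by
            rw [smul_eq_im, card_im]
            exact h
          simp [F, h4]
        rw [h2]
        simp only [h3, mul_zero]
        exact hasSum_zero
    refine ⟨f z, fun y => ?_⟩
    have h1 := hmain F C hF hFsum y.1 z.1 (y.2.trans z.2.symm)
    have h2 : F y.1 = f y := by
      simp only [F, y.2, dif_pos]
      rfl
    have h3 : F z.1 = f z := by
      simp only [F, z.2, dif_pos]
      rfl
    rw [← h2, ← h3, h1]

end Pool.Agent.Results.MP_2579e4_al.AlmostTranslations
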